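import Pool.Agent.J4H14.MB.Defs
import Pool.Agent.Q73.LS.Murre

/-!
# Murre's conjecture (B) and the geometric coniveau
-/

set_option autoImplicit false

open CategoryTheory AlgebraicGeometry

universe u v w

namespace Pool.Agent.J4H14.MB

open Pool.Agent.H914 Pool.Agent.H914.VarClass Pool.Agent.H914.VarClass.Obj Pool.Agent.W492.BB
  Pool.Agent.W550.Corr Pool.Agent.TH133 Pool.Agent.Y107 Pool.Agent.Q73.LS

set_option linter.unusedSectionVars false

variable {k : Type u} [Field k] {𝒱 : VarClass k} {C : TheoryData.{u, v, 0} 𝒱 ℚ}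
  [hC : IsChowProj C] {K : Type w} [Field K]
  {H : WeilTheoryData.{u, v, w} C K} [hH : IsWeilProj H] {X Y Z : 𝒱.Obj}

include hC hH

/-- The vanishing on homologically trivial divisors, for correspondences between different
varieties. -/
lemma picard_cross (hP : PicardFaithful H) {Θ : C.A (X.prod Y)} (hΘ : C.Deg X.dim Θ)
    (hk : Kills H Θ 1) {u : C.A X} (hu : C.Deg 1 u) (h0 : H.cl u = 0) : C.act Θ u = 0 := by
  obtain ⟨a, ha, ha1, -⟩ := exists_deg_one C Y
  obtain ⟨b, hb, -, hb1⟩ := exists_deg_one C X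
  have hΘ' : Θ ∈ C.gr (X.prod Y) (X.dim + 0) := by rw [add_zero]; exact hΘ
  have hR := (((Realised.mul (H := H) (C.pull_mem (snd X Y) ha)).comp
    (Realised.push (fst X Y))).comp (Realised.of (H := H) hΘ')).comp
    (Realised.pull (H := H) (snd X Y))
  obtain ⟨Ω, hΩ, h1, h2⟩ := hR
  beta_reduce at h1 h2
  have hΩ0 : C.Deg (X.prod Y).dim Ω := by
    have e : ((X.prod Y).dim : ℤ) + (Y.dim + (X.dim - (X.prod Y).dim) + 0 + 0) =
        (X.prod Y).dim := by rw [dim_prod]; push_cast; ring
    rw [e] at hΩ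
    exact hΩ
  have hK : Kills H Ω 1 := by
    intro x hx
    rw [h2]
    have h3 : H.push (fst X Y) (H.cl (C.pull (snd X Y) a) * x) ∈ H.gr X 1 := by
      have h4 := H.push_mem (fst X Y) (H.mul_mem (H.cl_mem (C.pull_mem (snd X Y) ha)) hx)
      have e : 2 * (Y.dim : ℤ) + 1 + 2 * ((X.dim : ℤ) - ((X.prod Y).dim : ℤ)) = 1 := by
        rw [dim_prod]; push_cast; ring
      rwa [e] at h4
    rw [hk _ h3, map_zero]
  have h5 := hP (X.prod Y) Ω hΩ0 hK (C.pull (fst X Y) u) (C.pull_mem _ hu)
    (by rw [H.cl_pull, h0, map_zero])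
  rw [h1] at h5
  have h6 : C.push (fst X Y) (C.pull (snd X Y) a * C.pull (fst X Y) u) = u := by
    rw [C.proj_right, ha1, one_mul]
  rw [h6] at h5
  have h7 : C.push (snd X Y) (C.pull (fst X Y) b * C.pull (snd X Y) (C.act Θ u)) =
      C.act Θ u := by
    rw [C.proj_right, hb1, one_mul]
  rw [← h7, h5, mul_zero, map_zero]

omit hH in
lemma act_corPow_of_eq {ν : C.A (X.prod X)} {x : C.A X} (h : C.act ν x = x) (n : ℕ) :
    C.act (corPow C ν n) x = x := by
  induction n with
  | zero => exact act_dg C x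
  | succ n ih =>
    change C.act (C.comp (corPow C ν n) ν) x = x
    rw [C.act_comp, ih, h]

lemma eq_zero_of_fixed (hN : IsNilpotent H X) {ν : C.A (X.prod X)} (hν : C.Deg X.dim ν)
    (h0 : H.cl ν = 0) {x : C.A X} (h : C.act ν x = x) : x = 0 := by
  obtain ⟨n, hn⟩ := hN ν hν h0
  rw [← act_corPow_of_eq h n, hn, C.act_zero]

/-- Homologically trivial classes of codimension at most zero vanish. -/
lemma eq_zero_of_le {j : ℤ} (hj : j ≤ 0) {x : C.A X} (hx : C.Deg j x) (h0 : H.cl x = 0) :
    x = 0 := by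
  rcases lt_or_eq_of_le hj with h | h
  · have h1 : x ∈ C.gr X j := hx
    rw [C.gr_neg X j h] at h1
    exact (Submodule.mem_bot _).1 h1
  · subst h
    exact eq_zero_of_deg0 (C := C) (H := H) hx h0

/-- A correspondence of degree zero acting as the identity on `H^i(X)`, conjugated. -/
lemma cl_zero_of_id {π : ℕ → C.A (X.prod X)} (hπ : IsCK H X π) {i : ℕ} {γ : C.A (X.prod X)}
    (hid : ∀ a : H.A X, H.Deg i a → H.act (H.cl γ) a = a) :
    H.cl (C.comp (C.comp (π i) (dg C X - γ)) (π i)) = 0 := by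
  apply hom_zero_of_act H
  have h1 : H.actL (H.cl (C.comp (C.comp (π i) (dg C X - γ)) (π i))) = 0 := by
    apply ext_gr H
    intro m a ha
    rw [LinearMap.zero_apply, TheoryData.actL_apply, actH_comp, actH_comp]
    by_cases hm : m = i
    · subst hm
      rw [hπ.act_self i a ha, map_sub, H.act_sub, actH_dg, hid a ha, sub_self]
      exact H.act_map_zero _
    · rw [hπ.act_ne i m a hm ha]
      rw [show H.act (H.cl (dg C X - γ)) (0 : H.A X) = 0 from H.act_map_zero _]
      exact H.act_map_zero _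
  intro a
  exact LinearMap.congr_fun h1 a

/-- The main lemma: if the geometric coniveau of `H^i(X)` is at least `j - 1` and `i > 2 j`, then
`π i` acts as zero on `CH^j(X)`. -/
theorem act_zero_of_coniveau (hP : PicardFaithful H) (hN : IsNilpotent H X)
    {π : ℕ → C.A (X.prod X)} (hπ : IsCK H X π) {i j c : ℕ} (hij : 2 * j < i) (hjc : j ≤ c + 1)
    (hc : ConiveauAtLeast H X i c) {z : C.A X} (hz : C.Deg j z) : C.act (π i) z = 0 := by
  obtain ⟨n, Y, s, α, β, hd, hid⟩ := hc
  let γ : C.A (X.prod X) := ∑ a, C.comp (α a) (β a)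
  have hα : ∀ a, α a ∈ C.gr (X.prod (Y a)) (X.dim + -(s a : ℤ)) := fun a => by
    have := (hd a).2.1
    rwa [sub_eq_add_neg] at this
  have hβ : ∀ a, β a ∈ C.gr ((Y a).prod X) ((Y a).dim + (s a : ℤ)) := fun a => (hd a).2.2
  have hγ : C.Deg X.dim γ := by
    apply Submodule.sum_mem
    intro a _
    have h := comp_mem C (hα a) (hβ a)
    rwa [neg_add_cancel, add_zero] at h
  have hγact : ∀ x, C.act γ x = ∑ a, C.act (β a) (C.act (α a) x) := by
    intro x
    rw [act_sum]
    exact Finset.sum_congr rfl fun a _ => C.act_comp _ _ _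
  have hγH : ∀ a : H.A X, H.Deg i a → H.act (H.cl γ) a = a := by
    intro x hx
    change H.act (H.cl (∑ a, C.comp (α a) (β a))) x = x
    rw [map_sum, act_sum]
    conv_rhs => rw [← hid x hx]
    exact Finset.sum_congr rfl fun a _ => actH_comp H _ _ _
  let ν : C.A (X.prod X) := C.comp (C.comp (π i) (dg C X - γ)) (π i)
  have hν0 : H.cl ν = 0 := cl_zero_of_id hπ hγH
  have hνd : C.Deg X.dim ν :=
    comp_mem0 C (comp_mem0 C (hπ.deg i) (Submodule.sub_mem _ (dg_mem C X) hγ)) (hπ.deg i)
  have hπd : π i ∈ C.gr (X.prod X) (X.dim + 0) := by rw [add_zero]; exact hπ.deg i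
  have hπi : ∀ x, C.act (π i) (C.act (π i) x) = C.act (π i) x := by
    intro x
    rw [← C.act_comp, hπ.idem]
  -- the space `π_i CH^j(X)`
  have hνact : ∀ w, C.act (π i) w = w → C.act ν w = w - C.act (π i) (C.act γ w) := by
    intro w hw
    change C.act (C.comp (C.comp _ _) _) w = _
    rw [C.act_comp, C.act_comp, hw, C.act_sub, act_dg, act_map_sub, hw]
  have hcl : ∀ w, C.Deg j w → C.act (π i) w = w → H.cl w = 0 := by
    intro w hw hw'
    rw [← hw', cl_act H]
    exact hπ.act_ne i (2 * j) _ (by omega) (H.cl_mem hw)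
  have hαw : ∀ w, C.Deg j w → ∀ a, C.Deg ((j : ℤ) - s a) (C.act (α a) w) := by
    intro w hw a
    have := act_mem' C (hα a) hw
    rwa [← sub_eq_add_neg] at this
  have hcross : ∀ w, C.Deg j w → C.act (π i) w = w → ∀ a b,
      C.act (α a) (C.act (π i) (C.act (β b) (C.act (α b) w))) = 0 := by
    intro w hw hw' a b
    have hu := hαw w hw b
    have hu0 : H.cl (C.act (α b) w) = 0 := by
      rw [cl_act H, hcl w hw hw']
      exact H.act_map_zero _
    have hb := (hd b).1
    have ha := (hd a).1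
    have hu1 : C.Deg ((j : ℤ) - s a) (C.act (α a) (C.act (π i) (C.act (β b)
        (C.act (α b) w)))) := by
      have h1 := act_mem' C (hα a) (act_mem' C hπd (act_mem' C (hβ b) hu))
      have e : (j : ℤ) - s b + s b + 0 + -(s a : ℤ) = j - s a := by ring
      rwa [e] at h1
    have hu2 : H.cl (C.act (α a) (C.act (π i) (C.act (β b) (C.act (α b) w)))) = 0 := by
      rw [cl_act H, cl_act H, cl_act H, hu0]
      rw [show H.act (H.cl (β b)) (0 : H.A (Y b)) = 0 from H.act_map_zero _]
      rw [show H.act (H.cl (π i)) (0 : H.A X) = 0 from H.act_map_zero _]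
      exact H.act_map_zero _
    by_cases h1 : (j : ℤ) - s b ≤ 0
    · rw [eq_zero_of_le (H := H) h1 hu hu0]
      rw [show C.act (β b) (0 : C.A (Y b)) = 0 from C.act_map_zero _]
      rw [show C.act (π i) (0 : C.A X) = 0 from C.act_map_zero _]
      exact C.act_map_zero _
    by_cases h2 : (j : ℤ) - s a ≤ 0
    · exact eq_zero_of_le (H := H) h2 hu1 hu2
    have hsb : (s b : ℤ) = j - 1 := by omega
    have hsa : (s a : ℤ) = j - 1 := by omega
    -- degree one
    have hR := ((Realised.of (H := H) (hβ b)).comp (Realised.of (H := H) hπd)).comp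
      (Realised.of (H := H) (hα a))
    obtain ⟨Θ, hΘ, h3, h4⟩ := hR
    beta_reduce at h3 h4
    rw [← h3]
    apply picard_cross hP
    · have e : ((Y b).dim : ℤ) + ((s b : ℤ) + 0 + -(s a : ℤ)) = (Y b).dim := by
        rw [hsa, hsb]; ring
      rw [e] at hΘ
      exact hΘ
    · intro x hx
      rw [h4]
      have h5 := actH_mem H (hβ b) hx
      rw [hπ.act_ne i _ _ ?_ h5]
      · exact H.act_map_zero _
      · rw [hsb]; omega
    · have e : (j : ℤ) - s b = 1 := by rw [hsb]; ring
      rw [← e]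
      exact hu
    · exact hu0
  have hstep : ∀ w, C.Deg j w → C.act (π i) w = w → ∀ a,
      C.act (α a) (C.act ν w) = C.act (α a) w := by
    intro w hw hw' a
    rw [hνact w hw', act_map_sub, hγact, act_map_sum, act_map_sum, Finset.sum_eq_zero, sub_zero]
    intro b _
    exact hcross w hw hw' a b
  have hstab : ∀ w, C.Deg j w → C.act (π i) w = w → C.Deg j (C.act ν w) ∧
      C.act (π i) (C.act ν w) = C.act ν w := by
    intro w hw hw'
    refine ⟨act_mem0 C hνd hw, ?_⟩
    rw [hνact w hw', act_map_sub, hw', hπi]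
  obtain ⟨m, hm⟩ := hN ν hνd hν0
  have hiter : ∀ t w, C.Deg j w → C.act (π i) w = w → ∀ a,
      C.act (α a) (C.act (corPow C ν t) w) = C.act (α a) w ∧
      C.Deg j (C.act (corPow C ν t) w) ∧
      C.act (π i) (C.act (corPow C ν t) w) = C.act (corPow C ν t) w := by
    intro t
    induction t with
    | zero =>
      intro w hw hw' a
      have e : C.act (corPow C ν 0) w = w := act_dg C w
      rw [e]
      exact ⟨rfl, hw, hw'⟩
    | succ t ih =>
      intro w hw hw' a
      have e : C.act (corPow C ν (t + 1)) w = C.act ν (C.act (corPow C ν t) w) := by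
        change C.act (C.comp (corPow C ν t) ν) w = _
        rw [C.act_comp]
      obtain ⟨h1, h2, h3⟩ := ih w hw hw' a
      rw [e, hstep _ h2 h3 a, h1]
      exact ⟨rfl, hstab _ h2 h3⟩
  set w := C.act (π i) z with hwdef
  have hw : C.Deg j w := act_mem0 C (hπ.deg i) hz
  have hw' : C.act (π i) w = w := hπi z
  have hα0 : ∀ a, C.act (α a) w = 0 := by
    intro a
    rw [← (hiter m w hw hw' a).1, hm, C.act_zero]
    exact C.act_map_zero _
  have hγ0 : C.act γ w = 0 := by
    rw [hγact]
    apply Finset.sum_eq_zero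
    intro a _
    rw [hα0 a]
    exact C.act_map_zero _
  apply eq_zero_of_fixed hN hνd hν0
  rw [hνact w hw', hγ0]
  rw [show C.act (π i) (0 : C.A X) = 0 from C.act_map_zero _, sub_zero]

end Pool.Agent.J4H14.MB
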