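import Pool.Agent.J4H14.MB.A

/-!
# Murre's conjecture (B): the theorems
-/

set_option autoImplicit false

open CategoryTheory AlgebraicGeometry

universe u v w

namespace Pool.Agent.J4H14.MB

open Pool.Agent.H914 Pool.Agent.H914.VarClass Pool.Agent.H914.VarClass.Obj Pool.Agent.W492.BB
  Pool.Agent.W550.Corr Pool.Agent.TH133 Pool.Agent.Y107 Pool.Agent.Q73.LS

set_option linter.unusedSectionVars false

variable {k : Type u} [Field k] {𝒱 : VarClass k} {C : TheoryData.{u, v, 0} 𝒱 ℚ}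
  [hC : IsChowProj C] {K : Type w} [Field K]
  {H : WeilTheoryData.{u, v, w} C K} [hH : IsWeilProj H] {X Y Z : 𝒱.Obj}

include hC hH

lemma coniveau_zero (X : 𝒱.Obj) (i : ℕ) : ConiveauAtLeast H X i 0 := by
  refine ⟨1, fun _ => X, fun _ => 0, fun _ => dg C X, fun _ => dg C X, fun a => ⟨le_rfl, ?_, ?_⟩,
    fun x _ => ?_⟩
  · have := dg_mem C X
    rw [Nat.cast_zero, sub_zero]
    exact this
  · have := dg_mem C X
    rw [Nat.cast_zero, add_zero]
    exact this
  · rw [Fin.sum_univ_one, actH_dg, actH_dg]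

lemma coniveau_shift (hB : LefschetzStandard H X) {i c : ℕ} (hi : X.dim ≤ i)
    (hi2 : i ≤ 2 * X.dim) (hc : ConiveauAtLeast H X (2 * X.dim - i) c) :
    ConiveauAtLeast H X i (c + (i - X.dim)) := by
  obtain ⟨f, g, hf, hg, -, hfg⟩ := hB (2 * X.dim - i) (by omega)
  obtain ⟨n, Y, s, α, β, hd, hid⟩ := hc
  have hf' : f ∈ C.gr (X.prod X) (X.dim + ((i : ℤ) - X.dim)) := by
    have h1 : f ∈ C.gr (X.prod X) (2 * X.dim - (2 * X.dim - i) : ℕ) := hf
    have e : ((2 * X.dim - (2 * X.dim - i) : ℕ) : ℤ) = X.dim + ((i : ℤ) - X.dim) := by omega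
    rwa [e] at h1
  have hg' : g ∈ C.gr (X.prod X) (X.dim + ((X.dim : ℤ) - i)) := by
    have h1 : g ∈ C.gr (X.prod X) (2 * X.dim - i : ℕ) := hg
    have e : ((2 * X.dim - i : ℕ) : ℤ) = X.dim + ((X.dim : ℤ) - i) := by omega
    rwa [e] at h1
  refine ⟨n, Y, fun a => s a + (i - X.dim), fun a => C.comp g (α a), fun a => C.comp (β a) f,
    fun a => ⟨Nat.add_le_add_right (hd a).1 _, ?_, ?_⟩, fun x hx => ?_⟩
  · have h1 : α a ∈ C.gr (X.prod (Y a)) (X.dim + -(s a : ℤ)) := by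
      have := (hd a).2.1
      rwa [sub_eq_add_neg] at this
    have h2 := comp_mem C hg' h1
    have e : (X.dim : ℤ) + ((X.dim : ℤ) - i + -(s a : ℤ)) =
        X.dim - ((s a + (i - X.dim) : ℕ) : ℤ) := by omega
    rw [e] at h2
    exact h2
  · have h2 := comp_mem C (hd a).2.2 hf'
    have e : ((Y a).dim : ℤ) + ((s a : ℤ) + ((i : ℤ) - X.dim)) =
        (Y a).dim + ((s a + (i - X.dim) : ℕ) : ℤ) := by omega
    rw [e] at h2
    exact h2
  · have hgx : H.Deg (2 * X.dim - i : ℕ) (H.act (H.cl g) x) := by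
      have h1 := actH_mem H hg' hx
      have e : (i : ℤ) + 2 * ((X.dim : ℤ) - i) = (2 * X.dim - i : ℕ) := by omega
      rw [e] at h1
      exact h1
    have h2 := hid _ hgx
    have hx' : H.Deg (2 * X.dim - (2 * X.dim - i) : ℕ) x := by
      have e : 2 * X.dim - (2 * X.dim - i) = i := by omega
      rw [e]
      exact hx
    conv_rhs => rw [← hfg x hx', ← h2, act_map_sum]
    refine Finset.sum_congr rfl fun a _ => ?_
    rw [actH_comp, actH_comp]

/-- Half of the conjecture: `π i` acts as zero on `CH^j(X)` for `i < j`. -/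
theorem act_zero_of_lt (hN : IsNilpotent H X) (hB : LefschetzStandard H X)
    {π : ℕ → C.A (X.prod X)} (hπ : IsCK H X π) {i j : ℕ} (hij : i < j) {z : C.A X}
    (hz : C.Deg j z) : C.act (π i) z = 0 := by
  by_cases hj : X.dim < j
  · rw [hC.gr_top X j z hz (by exact_mod_cast hj)]
    exact C.act_map_zero _
  obtain ⟨f, g, hf, hg, hgf, -⟩ := hB i (by omega)
  have hf' : f ∈ C.gr (X.prod X) (X.dim + ((X.dim : ℤ) - i)) := by
    have h1 : f ∈ C.gr (X.prod X) (2 * X.dim - i : ℕ) := hf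
    have e : ((2 * X.dim - i : ℕ) : ℤ) = X.dim + ((X.dim : ℤ) - i) := by omega
    rwa [e] at h1
  have hg' : g ∈ C.gr (X.prod X) (X.dim + ((i : ℤ) - X.dim)) := by
    have h1 : g ∈ C.gr (X.prod X) (i : ℤ) := hg
    have e : (i : ℤ) = X.dim + ((i : ℤ) - X.dim) := by ring
    rwa [← e]
  let ν : C.A (X.prod X) := C.comp (C.comp (π i) (dg C X - C.comp f g)) (π i)
  have hγd : C.comp f g ∈ C.gr (X.prod X) X.dim := by
    have h := comp_mem C hf' hg'
    have e : (X.dim : ℤ) + ((X.dim : ℤ) - i + ((i : ℤ) - X.dim)) = X.dim := by ring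
    rwa [e] at h
  have hν0 : H.cl ν = 0 := cl_zero_of_id hπ (γ := C.comp f g) fun a ha => by
    rw [actH_comp]
    exact hgf a ha
  have hνd : C.Deg X.dim ν :=
    comp_mem0 C (comp_mem0 C (hπ.deg i) (Submodule.sub_mem _ (dg_mem C X) hγd)) (hπ.deg i)
  apply eq_zero_of_fixed hN hνd hν0
  change C.act (C.comp (C.comp _ _) _) _ = _
  have hπi : C.act (π i) (C.act (π i) z) = C.act (π i) z := by
    rw [← C.act_comp, hπ.idem]
  have hw : C.act (π i) z ∈ C.gr X j := act_mem0 C (hπ.deg i) hz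
  have h0 : C.act f (C.act (π i) z) = 0 := by
    have h1 := act_mem' C hf' hw
    exact hC.gr_top X _ _ h1 (by omega)
  rw [C.act_comp, C.act_comp, hπi, C.act_sub, act_dg, act_map_sub, hπi, C.act_comp, h0]
  rw [show C.act g (0 : C.A X) = 0 from C.act_map_zero _]
  rw [show C.act (π i) (0 : C.A X) = 0 from C.act_map_zero _, sub_zero]

theorem murreB1_of (hN : IsNilpotent H X) (hB : LefschetzStandard H X) : MurreB1 H X := by
  intro π hπ i
  rw [eq_bot_iff]
  intro x hx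
  rw [hπ.mem_ckFil] at hx
  rw [Submodule.mem_bot]
  have h1 : x = ∑ j ∈ Finset.range (2 * X.dim + 1), C.act (π j) x := by
    rw [← act_sum, hπ.sum, act_dg]
  rw [h1]
  apply Finset.sum_eq_zero
  intro j _
  rcases lt_or_ge j i with h | h
  · exact act_zero_of_lt hN hB hπ h hx.1
  · exact hx.2 j (by omega)

/-- If the geometric coniveau of `H^i(X)` is at least `(i - 4) / 2` for all `i ≤ dim X`, then `π i`
acts as zero on `CH^j(X)` for `i > 2 j`. -/
theorem murreB0_of (hP : PicardFaithful H) (hN : IsNilpotent H X) (hB : LefschetzStandard H X)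
    (hc : ∀ i : ℕ, 5 ≤ i → i ≤ X.dim → ∃ c : ℕ, i ≤ 2 * c + 4 ∧ ConiveauAtLeast H X i c) :
    MurreB0 H X := by
  rw [murreB0_iff]
  intro π hπ j i x hx hij
  have key : ∀ i : ℕ, i ≤ X.dim → ∃ c : ℕ, i ≤ 2 * c + 4 ∧ ConiveauAtLeast H X i c := by
    intro i hi
    rcases Nat.lt_or_ge i 5 with h5 | h5
    · exact ⟨0, by omega, coniveau_zero X i⟩
    · exact hc i h5 hi
  by_cases hi2 : 2 * X.dim < i
  · rw [hπ.out i hi2, C.act_zero]
  rcases Nat.lt_or_ge X.dim i with hi | hi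
  · obtain ⟨c, h1, h2⟩ := key (2 * X.dim - i) (by omega)
    exact act_zero_of_coniveau hP hN hπ hij (by omega)
      (coniveau_shift hB hi.le (by omega) h2) hx
  · obtain ⟨c, h1, h2⟩ := key i hi
    exact act_zero_of_coniveau hP hN hπ hij (by omega) h2 hx

end Pool.Agent.J4H14.MB
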