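import Pool.Agent.Q73.LS.Murre

/-!
# Chow-Kunneth decompositions and homologically trivial idempotents
-/

set_option autoImplicit false

open CategoryTheory AlgebraicGeometry

universe u v w

namespace Pool.Agent.J4H14.MB

open Pool.Agent.H914 Pool.Agent.H914.VarClass Pool.Agent.H914.VarClass.Obj Pool.Agent.W492.BB
  Pool.Agent.W550.Corr Pool.Agent.TH133 Pool.Agent.Y107 Pool.Agent.Q73.LS

set_option linter.unusedSectionVars false

variable {k : Type u} [Field k] {𝒱 : VarClass k} {C : TheoryData.{u, v, 0} 𝒱 ℚ}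
  [hC : IsChowProj C] {K : Type w} [Field K]
  {H : WeilTheoryData.{u, v, w} C K} [hH : IsWeilProj H] {X : 𝒱.Obj}

/-- Correspondences of degree zero do not raise the weights. -/
def Tri (P : ℕ → Cor C X) : Prop := ∀ γ ∈ cor0 C X, ∀ a b : ℕ, a < b → P b * γ * P a = 0

/-- The homologically trivial idempotents act as zero on `CH^j(X)`. -/
def PhZero (H : WeilTheoryData.{u, v, w} C K) (X : 𝒱.Obj) (j : ℕ) : Prop :=
  ∀ e ∈ cor0 C X, e * e = e → H.cl (X := X.prod X) e = 0 → ∀ x ∈ C.gr X j, actC C X e x = 0

/-- The classes `x ∈ CH^j(X)` of weights less than `a`. -/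
def Low (P : ℕ → Cor C X) (j a : ℕ) (x : C.A X) : Prop :=
  x ∈ C.gr X j ∧ ∀ m : ℕ, a ≤ m → actC C X (P m) x = 0

include hH

lemma sum_act {P : ℕ → Cor C X} (hP : IsCK H X P) (x : C.A X) :
    ∑ m ∈ Finset.range (2 * X.dim + 1), actC C X (P m) x = x := by
  have h1 := congrArg (fun a => actC C X a x) hP.sum_eq
  simp only [map_sum, map_one, LinearMap.sum_apply] at h1
  exact h1

lemma actC_mem {a : Cor C X} (ha : a ∈ cor0 C X) {j : ℕ} {x : C.A X} (hx : x ∈ C.gr X j) :
    actC C X a x ∈ C.gr X j := act_mem0 C ha hx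

lemma low_zero {P : ℕ → Cor C X} (hP : IsCK H X P) {j : ℕ} {x : C.A X} (h : Low P j 0 x) :
    x = 0 := by
  rw [← sum_act hP x]
  exact Finset.sum_eq_zero fun m _ => h.2 m (Nat.zero_le _)

lemma low_top {P : ℕ → Cor C X} (hP : IsCK H X P) {j : ℕ} {x : C.A X} (h : x ∈ C.gr X j) :
    Low P j (2 * X.dim + 1) x := by
  refine ⟨h, fun m hm => ?_⟩
  have h1 : P m = 0 := hP.out m (by omega)
  rw [h1, map_zero, LinearMap.zero_apply]

/-- The weight pieces of the image of a class of low weight. -/
lemma low_piece {P : ℕ → Cor C X} (hP : IsCK H X P) (hT : Tri P) {γ : Cor C X}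
    (hγ : γ ∈ cor0 C X) {j a : ℕ} {x : C.A X} (hx : Low P j (a + 1) x) {m : ℕ} (hm : a ≤ m) :
    actC C X (P m) (actC C X γ x) = if m = a then actC C X (P a * γ * P a) x else 0 := by
  have h1 : actC C X (P m) (actC C X γ x) =
      ∑ b ∈ Finset.range (2 * X.dim + 1), actC C X (P m * γ * P b) x := by
    conv_lhs => rw [← sum_act hP x]
    rw [map_sum, map_sum]
    refine Finset.sum_congr rfl fun b _ => ?_
    rw [map_mul, map_mul]
    rfl
  have h2 : ∀ b : ℕ, b ≠ m ∨ m ≠ a → actC C X (P m * γ * P b) x = 0 := by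
    intro b hb
    rcases lt_or_ge b m with h | h
    · rw [hT γ hγ b m h, map_zero, LinearMap.zero_apply]
    · have h3 : actC C X (P b) x = 0 := hx.2 b (by omega)
      rw [map_mul, Module.End.mul_apply, h3, map_zero]
  rw [h1]
  split_ifs with hma
  · subst hma
    by_cases h4 : m < 2 * X.dim + 1
    · rw [Finset.sum_eq_single m]
      · exact fun b _ hb => h2 b (Or.inl hb)
      · intro h5
        exact absurd (Finset.mem_range.2 h4) h5
    · have h5 : P m = 0 := hP.out m (by omega)
      have h6 : actC C X (P m * γ * P m) x = 0 := by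
        rw [h5, mul_zero, map_zero, LinearMap.zero_apply]
      rw [h6]
      exact Finset.sum_eq_zero fun b hb => h2 b (Or.inl (by rw [Finset.mem_range] at hb; omega))
  · exact Finset.sum_eq_zero fun b _ => h2 b (Or.inr hma)

lemma low_stable {P : ℕ → Cor C X} (hP : IsCK H X P) (hT : Tri P) {γ : Cor C X}
    (hγ : γ ∈ cor0 C X) {j a : ℕ} {x : C.A X} (hx : Low P j (a + 1) x) :
    Low P j (a + 1) (actC C X γ x) := by
  refine ⟨actC_mem (H := H) hγ hx.1, fun m hm => ?_⟩
  rw [low_piece hP hT hγ hx (by omega), if_neg (by omega)]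

lemma diag_idem {P : ℕ → Cor C X} (hP : IsCK H X P) (hT : Tri P) {q : Cor C X}
    (hq : q ∈ cor0 C X) (hqq : q * q = q) (a : ℕ) :
    (P a * q * P a) * (P a * q * P a) = P a * q * P a := by
  have h1 : P a * P a = P a := by rw [hP.mul_eq, if_pos rfl]
  have h2 : ∑ b ∈ Finset.range (2 * X.dim + 1), P a * q * P b * (q * P a) = P a * q * P a := by
    rw [← Finset.sum_mul, ← Finset.mul_sum, hP.sum_eq, mul_one]
    calc P a * q * (q * P a) = P a * (q * q) * P a := by simp only [mul_assoc]
      _ = _ := by rw [hqq]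
  have h3 : ∀ b, b ≠ a → P a * q * P b * (q * P a) = 0 := by
    intro b hb
    rcases lt_or_gt_of_ne hb with h | h
    · rw [hT q hq b a h, zero_mul]
    · rw [mul_assoc (P a * q), ← mul_assoc (P b), hT q hq a b h, mul_zero]
  calc (P a * q * P a) * (P a * q * P a) = P a * q * (P a * P a) * (q * P a) := by
        simp only [mul_assoc]
    _ = P a * q * P a * (q * P a) := by rw [h1]
    _ = P a * q * P a := by
      by_cases h4 : a ∈ Finset.range (2 * X.dim + 1)
      · have h6 := Finset.sum_eq_single_of_mem a h4 fun b _ hb => h3 b hb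
        rw [h2] at h6
        exact h6.symm
      · have h5 : P a = 0 := hP.out a (by rw [Finset.mem_range] at h4; omega)
        rw [h5]
        simp

lemma cl_diag {P : ℕ → Cor C X} (hP : IsCK H X P) {q : Cor C X} {a : ℕ}
    (hqa : ∀ h ∈ H.gr X (a : ℤ), actH C X H q h = 0) :
    H.cl (X := X.prod X) (P a * q * P a) = 0 := by
  apply hom_zero_of_act H
  have h1 : actH C X H (P a * q * P a) = 0 := by
    apply ext_gr H
    intro m h hh
    rw [map_mul, map_mul, Module.End.mul_apply, Module.End.mul_apply, hP.actH_eq' a m hh,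
      LinearMap.zero_apply]
    split_ifs with hm
    · subst hm
      rw [hqa h hh, map_zero]
    · rw [map_zero, map_zero]
  intro h
  exact LinearMap.congr_fun h1 h

lemma diag_mem {P : ℕ → Cor C X} (hP : IsCK H X P) {q : Cor C X} (hq : q ∈ cor0 C X) (a : ℕ) :
    P a * q * P a ∈ cor0 C X :=
  (cor0 C X).mul_mem ((cor0 C X).mul_mem (hP.deg a) hq) (hP.deg a)

/-- An idempotent which kills `H^a` lowers the weight. -/
lemma lower {P : ℕ → Cor C X} (hP : IsCK H X P) (hT : Tri P) {j : ℕ} (hph : PhZero H X j)
    {q : Cor C X} (hq : q ∈ cor0 C X) (hqq : q * q = q) {a : ℕ}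
    (hqa : ∀ h ∈ H.gr X (a : ℤ), actH C X H q h = 0) {x : C.A X} (hx : Low P j (a + 1) x) :
    Low P j a (actC C X q x) := by
  refine ⟨actC_mem (H := H) hq hx.1, fun m hm => ?_⟩
  rw [low_piece hP hT hq hx hm]
  split_ifs
  · exact hph _ (diag_mem hP hq a) (diag_idem hP hT hq hqq a) (cl_diag hP hqa) x hx.1
  · rfl

lemma mem_ckFil' {P : ℕ → Cor C X} (hP : IsCK H X P) (j n : ℕ) (x : C.A X) :
    x ∈ ckFil C P j n ↔ Low P j (2 * j + 1 - n) x := hP.mem_ckFil j n x

/-- The weights of another decomposition. -/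
lemma low_of_low {P Q : ℕ → Cor C X} (hP : IsCK H X P) (hQ : IsCK H X Q) (hT : Tri P) {j : ℕ}
    (hph : PhZero H X j) (t : ℕ) (x : C.A X) : Low P j t x ↔ Low Q j t x := by
  let q : Cor C X := ∑ m ∈ Finset.range t, Q m
  have hqm : q ∈ cor0 C X := Subalgebra.sum_mem _ fun m _ => hQ.deg m
  have hqQ : ∀ m, q * Q m = if m < t then Q m else 0 := by
    intro m
    change (∑ i ∈ Finset.range t, Q i) * Q m = _
    rw [Finset.sum_mul]
    simp_rw [hQ.mul_eq]
    by_cases hm : m < t
    · rw [if_pos hm, Finset.sum_eq_single_of_mem m (Finset.mem_range.2 hm) fun b _ hb =>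
        if_neg hb, if_pos rfl]
    · rw [if_neg hm]
      refine Finset.sum_eq_zero fun b hb => if_neg ?_
      rw [Finset.mem_range] at hb
      omega
  have hQq : ∀ m, Q m * q = if m < t then Q m else 0 := by
    intro m
    change Q m * (∑ i ∈ Finset.range t, Q i) = _
    rw [Finset.mul_sum]
    simp_rw [hQ.mul_eq]
    by_cases hm : m < t
    · rw [if_pos hm, Finset.sum_eq_single_of_mem m (Finset.mem_range.2 hm) fun b _ hb =>
        if_neg (Ne.symm hb), if_pos rfl]
    · rw [if_neg hm]
      refine Finset.sum_eq_zero fun b hb => if_neg ?_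
      rw [Finset.mem_range] at hb
      omega
  have hqq : q * q = q := by
    change q * (∑ i ∈ Finset.range t, Q i) = ∑ i ∈ Finset.range t, Q i
    rw [Finset.mul_sum]
    refine Finset.sum_congr rfl fun m hm => ?_
    rw [hqQ, if_pos (Finset.mem_range.1 hm)]
  have hqH : ∀ (a : ℕ) (h : H.A X), h ∈ H.gr X (a : ℤ) →
      actH C X H q h = if a < t then h else 0 := by
    intro a h hh
    change actH C X H (∑ i ∈ Finset.range t, Q i) h = _
    rw [map_sum, LinearMap.sum_apply]
    simp_rw [hQ.actH_eq' _ _ hh]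
    by_cases ha : a < t
    · rw [if_pos ha, Finset.sum_eq_single_of_mem a (Finset.mem_range.2 ha), if_pos rfl]
      intro b _ hb
      rw [if_neg (by omega)]
    · rw [if_neg ha]
      refine Finset.sum_eq_zero fun b hb => ?_
      rw [Finset.mem_range] at hb
      rw [if_neg (by omega)]
  constructor
  · intro hx
    -- `(1 - q) x = 0`
    have h1m : (1 - q : Cor C X) ∈ cor0 C X := (cor0 C X).sub_mem (cor0 C X).one_mem hqm
    have h1q : (1 - q : Cor C X) * (1 - q) = 1 - q := by
      rw [sub_mul, mul_sub, mul_sub, hqq, one_mul, mul_one, sub_self, sub_zero, one_mul]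
    have h1H : ∀ a : ℕ, a < t → ∀ h ∈ H.gr X (a : ℤ), actH C X H (1 - q) h = 0 := by
      intro a ha h hh
      rw [map_sub, map_one, LinearMap.sub_apply, hqH a h hh, if_pos ha]
      exact sub_self _
    have key : ∀ s : ℕ, s ≤ t → ∀ y, Low P j s y → actC C X (1 - q) y = y → y = 0 := by
      intro s
      induction s with
      | zero => exact fun _ y hy _ => low_zero hP hy
      | succ s ih =>
        intro hs y hy hy'
        apply ih (by omega) y _ hy'
        rw [← hy']
        exact lower hP hT hph h1m h1q (h1H s (by omega)) hy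
    have h2 : Low P j t (actC C X (1 - q) x) := by
      rcases Nat.eq_zero_or_pos t with h | h
      · subst h
        have h3 := low_zero hP hx
        subst h3
        rw [map_zero]
        exact hx
      · obtain ⟨s, rfl⟩ := Nat.exists_eq_succ_of_ne_zero h.ne'
        exact low_stable hP hT h1m hx
    have h3 : actC C X (1 - q) x = 0 := by
      apply key t le_rfl _ h2
      rw [← Module.End.mul_apply, ← map_mul, h1q]
    have h4 : actC C X q x = x := by
      rw [map_sub, map_one, LinearMap.sub_apply, sub_eq_zero] at h3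
      exact h3.symm
    refine ⟨hx.1, fun m hm => ?_⟩
    rw [← h4, ← Module.End.mul_apply, ← map_mul, hQq, if_neg (by omega), map_zero,
      LinearMap.zero_apply]
  · intro hx
    have h4 : actC C X q x = x := by
      conv_rhs => rw [← sum_act hQ x]
      change actC C X (∑ i ∈ Finset.range t, Q i) x = _
      rw [map_sum, LinearMap.sum_apply]
      rcases le_total t (2 * X.dim + 1) with h | h
      · apply Finset.sum_subset
        · intro m hm
          rw [Finset.mem_range] at *
          omega
        · intro m _ hm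
          rw [Finset.mem_range] at hm
          exact hx.2 m (by omega)
      · symm
        apply Finset.sum_subset
        · intro m hm
          rw [Finset.mem_range] at *
          omega
        · intro m _ hm
          rw [Finset.mem_range] at hm
          exact (low_top hQ hx.1).2 m (by omega)
    have key : ∀ s : ℕ, Low P j (t + s) x → Low P j t x := by
      intro s
      induction s with
      | zero => exact fun h => h
      | succ s ih =>
        intro h
        apply ih
        rw [← h4]
        exact lower hP hT hph hqm hqq (fun h' hh' => by rw [hqH _ h' hh', if_neg (by omega)]) h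
    apply key (2 * X.dim + 1)
    exact ⟨hx.1, fun m hm => (low_top hP hx.1).2 m (by omega)⟩

/-- **Independence.** -/
theorem ckFil_eq {P Q : ℕ → Cor C X} (hP : IsCK H X P) (hQ : IsCK H X Q) (hT : Tri P)
    {j : ℕ} (hph : PhZero H X j) (n : ℕ) : ckFil C P j n = ckFil C Q j n := by
  ext x
  rw [mem_ckFil' hP, mem_ckFil' hQ]
  exact low_of_low hP hQ hT hph _ x

end Pool.Agent.J4H14.MB
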