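import Pool.Agent.J4H14.MB.C

/-!
# Moving homologically trivial idempotents
-/

set_option autoImplicit false

open CategoryTheory AlgebraicGeometry

universe u v w

namespace Pool.Agent.J4H14.MB

open Pool.Agent.H914 Pool.Agent.H914.VarClass Pool.Agent.H914.VarClass.Obj Pool.Agent.W492.BB
  Pool.Agent.W550.Corr Pool.Agent.TH133 Pool.Agent.Y107 Pool.Agent.Q73.LS

set_option linter.unusedSectionVars false

variable {k : Type u} [Field k] {𝒱 : VarClass k} {C : TheoryData.{u, v, 0} 𝒱 ℚ}
  [hC : IsChowProj C] {K : Type w} [Field K]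
  {H : WeilTheoryData.{u, v, w} C K} [hH : IsWeilProj H] {X : 𝒱.Obj}

/-- `ε` is a homologically trivial idempotent contained in `P a`. -/
structure Sub (H : WeilTheoryData.{u, v, w} C K) (P : ℕ → Cor C X) (a : ℕ) (ε : Cor C X) :
    Prop where
  mem : ε ∈ cor0 C X
  idem : ε * ε = ε
  left : P a * ε = ε
  right : ε * P a = ε
  cl : H.cl (X := X.prod X) ε = 0

/-- The decomposition with `ε` moved from `a` to `b`. -/
noncomputable def mv (P : ℕ → Cor C X) (a b : ℕ) (ε : Cor C X) (i : ℕ) : Cor C X :=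
  P i + ((if i = b then ε else 0) - (if i = a then ε else 0))

include hH

lemma Sub.mulL {P : ℕ → Cor C X} (hP : IsCK H X P) {a : ℕ} {ε : Cor C X} (h : Sub H P a ε)
    (i : ℕ) : P i * ε = if i = a then ε else 0 := by
  rw [← h.left, ← mul_assoc, hP.mul_eq]
  split_ifs with h1
  · rw [h1]
  · rw [zero_mul]

lemma Sub.mulR {P : ℕ → Cor C X} (hP : IsCK H X P) {a : ℕ} {ε : Cor C X} (h : Sub H P a ε)
    (i : ℕ) : ε * P i = if i = a then ε else 0 := by
  rw [← h.right, mul_assoc, hP.mul_eq]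
  by_cases h1 : a = i
  · rw [if_pos h1, if_pos h1.symm]
  · rw [if_neg h1, if_neg (Ne.symm h1), mul_zero]

lemma Sub.actH0 {P : ℕ → Cor C X} {a : ℕ} {ε : Cor C X} (h : Sub H P a ε) (x : H.A X) :
    actH C X H ε x = 0 := by
  rw [actH_apply, h.cl]
  exact TheoryData.act_zero _ _

lemma isCK_mv {P : ℕ → Cor C X} (hP : IsCK H X P) {a b : ℕ} (ha : a ≤ 2 * X.dim)
    (hb : b ≤ 2 * X.dim) (hab : b ≠ a) {ε : Cor C X} (h : Sub H P a ε) :
    IsCK H X (mv P a b ε) := by
  apply isCK_of
  · intro i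
    refine (cor0 C X).add_mem (hP.deg i) ((cor0 C X).sub_mem ?_ ?_)
    · split_ifs
      · exact h.mem
      · exact (cor0 C X).zero_mem
    · split_ifs
      · exact h.mem
      · exact (cor0 C X).zero_mem
  · intro i hi
    have h1 : P i = 0 := hP.out i hi
    rw [mv, h1, if_neg (by omega), if_neg (by omega), sub_self, add_zero]
  · intro i j
    simp only [mv]
    have e1 := h.mulL hP
    have e2 := h.mulR hP
    have e3 := hP.mul_eq
    by_cases hib : i = b <;> by_cases hia : i = a <;> by_cases hjb : j = b <;>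
      by_cases hja : j = a
    all_goals first
      | (exfalso; omega)
      | skip
    all_goals
      simp only [mul_add, add_mul, e1, e2, e3, h.idem, hib, hia, hjb, hja,
        hab, hab.symm, if_true, if_false, sub_zero, zero_sub, add_zero,
        zero_add, mul_neg, neg_mul]
    all_goals first
      | (split_ifs <;> first | (exfalso; omega) | abel)
      | abel
  · simp only [mv]
    rw [Finset.sum_add_distrib, Finset.sum_sub_distrib, hP.sum_eq,
      Finset.sum_ite_eq' (Finset.range (2 * X.dim + 1)) b,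
      Finset.sum_ite_eq' (Finset.range (2 * X.dim + 1)) a,
      if_pos (Finset.mem_range.2 (by omega)), if_pos (Finset.mem_range.2 (by omega)), sub_self,
      add_zero]
  · intro i m x hx
    rw [mv, map_add, map_sub, LinearMap.add_apply, LinearMap.sub_apply]
    have h1 : actH C X H (if i = b then ε else 0) x = 0 := by
      split_ifs
      · exact h.actH0 x
      · rw [map_zero]; rfl
    have h2 : actH C X H (if i = a then ε else 0) x = 0 := by
      split_ifs
      · exact h.actH0 x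
      · rw [map_zero]; rfl
    rw [h1, h2, sub_zero, add_zero]
    exact hP.actH_eq' i m hx

lemma Sub.act_mem {P : ℕ → Cor C X} {a : ℕ} {ε : Cor C X} (h : Sub H P a ε) {j : ℕ} {x : C.A X}
    (hx : x ∈ C.gr X j) : actC C X ε x ∈ C.gr X j := actC_mem (H := H) h.mem hx

lemma Sub.act_P {P : ℕ → Cor C X} (hP : IsCK H X P) {a : ℕ} {ε : Cor C X} (h : Sub H P a ε)
    (i : ℕ) (x : C.A X) : actC C X (P i) (actC C X ε x) = if i = a then actC C X ε x else 0 := by
  rw [← Module.End.mul_apply, ← map_mul, h.mulL hP]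
  split_ifs
  · rfl
  · rw [map_zero]; rfl

lemma Sub.act_mv {P : ℕ → Cor C X} (hP : IsCK H X P) {a b : ℕ} (hab : b ≠ a) {ε : Cor C X}
    (h : Sub H P a ε) (i : ℕ) (x : C.A X) :
    actC C X (mv P a b ε i) (actC C X ε x) = if i = b then actC C X ε x else 0 := by
  have hεε : actC C X ε (actC C X ε x) = actC C X ε x := by
    rw [← Module.End.mul_apply, ← map_mul, h.idem]
  rw [mv, map_add, map_sub, LinearMap.add_apply, LinearMap.sub_apply, h.act_P hP]
  by_cases h1 : i = b
  · subst h1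
    rw [if_neg hab, if_pos rfl, if_neg hab, if_pos rfl, hεε, map_zero, LinearMap.zero_apply,
      sub_zero, zero_add]
  · rw [if_neg h1, if_neg h1, map_zero, LinearMap.zero_apply, zero_sub]
    by_cases h2 : i = a
    · rw [if_pos h2, if_pos h2, hεε]
      exact add_neg_cancel _
    · rw [if_neg h2, if_neg h2, map_zero, LinearMap.zero_apply, neg_zero, add_zero]

/-- The idempotents contained in the `P a` suffice. -/
lemma phZero_of_sub {P : ℕ → Cor C X} (hP : IsCK H X P) (hT : Tri P) {j : ℕ}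
    (h : ∀ a ≤ 2 * X.dim, ∀ ε, Sub H P a ε → ∀ x ∈ C.gr X j, actC C X ε x = 0) :
    PhZero H X j := by
  intro e he hee hcl x hx
  have hstep : ∀ a y, Low P j (a + 1) y → Low P j a (actC C X e y) := by
    intro a y hy
    refine ⟨actC_mem (H := H) he hy.1, fun m hm => ?_⟩
    rw [low_piece hP hT he hy hm]
    split_ifs
    · by_cases ha : a ≤ 2 * X.dim
      · have h1 : P a * P a = P a := by rw [hP.mul_eq, if_pos rfl]
        refine h a ha _ ⟨diag_mem hP he a, diag_idem hP hT he hee a, ?_, ?_,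
          cl_diag hP fun h' _ => ?_⟩ y hy.1
        · rw [← mul_assoc, ← mul_assoc, h1]
        · rw [mul_assoc, h1]
        · rw [actH_apply, hcl]
          exact TheoryData.act_zero _ _
      · have h1 : P a = 0 := hP.out a (by omega)
        rw [h1, mul_zero, map_zero, LinearMap.zero_apply]
    · rfl
  have key : ∀ a y, Low P j a y → actC C X e y = y → y = 0 := by
    intro a
    induction a with
    | zero => exact fun y hy _ => low_zero hP hy
    | succ a ih =>
      intro y hy hy'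
      apply ih y _ hy'
      rw [← hy']
      exact hstep a y hy
  apply key (2 * X.dim + 1)
  · exact low_top hP (actC_mem (H := H) he hx)
  · rw [← Module.End.mul_apply, ← map_mul, hee]

lemma phZero_of_C (hd : 1 ≤ X.dim) {P : ℕ → Cor C X} (hP : IsCK H X P) (hT : Tri P)
    (hC' : MurreC H X) (j : ℕ) : PhZero H X j := by
  apply phZero_of_sub hP hT
  intro a ha ε hε x hx
  have hz := hε.act_mem hx
  rcases Nat.eq_zero_or_pos a with h0 | h0
  · subst h0
    have hQ := isCK_mv hP (Nat.zero_le _) (show 1 ≤ 2 * X.dim by omega) one_ne_zero hε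
    have h1 : actC C X ε x ∈ ckFil C P j (2 * j) := by
      rw [mem_ckFil' hP]
      refine ⟨hz, fun m hm => ?_⟩
      rw [hε.act_P hP, if_neg (by omega)]
    rw [hC' P _ hP hQ, mem_ckFil' hQ] at h1
    have h2 := h1.2 1 (by omega)
    rw [hε.act_mv hP one_ne_zero, if_pos rfl] at h2
    exact h2
  · have hQ := isCK_mv hP ha (Nat.zero_le _) h0.ne hε
    have h1 : actC C X ε x ∈ ckFil C (mv P a 0 ε) j (2 * j) := by
      rw [mem_ckFil' hQ]
      refine ⟨hz, fun m hm => ?_⟩
      rw [hε.act_mv hP h0.ne, if_neg (by omega)]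
    rw [← hC' P _ hP hQ, mem_ckFil' hP] at h1
    have h2 := h1.2 a (by omega)
    rw [hε.act_P hP, if_pos rfl] at h2
    exact h2

lemma act_zero_of_B1 {Q : ℕ → Cor C X} (hQ : IsCK H X Q) {j : ℕ}
    (hB : ckFil C Q j (j + 1) = ⊥) {i : ℕ} (hij : i < j) {x : C.A X} (hx : x ∈ C.gr X j) :
    actC C X (Q i) x = 0 := by
  rw [← Submodule.mem_bot ℚ, ← hB, mem_ckFil' hQ]
  refine ⟨actC_mem (H := H) (hQ.deg i) hx, fun m hm => ?_⟩
  rw [← Module.End.mul_apply, ← map_mul, hQ.mul_eq, if_neg (by omega), map_zero,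
    LinearMap.zero_apply]

lemma act_zero_of_B0 {Q : ℕ → Cor C X} (hQ : IsCK H X Q) {j : ℕ}
    (hB : ckFil C Q j 0 = C.gr X j) {i : ℕ} (hij : 2 * j < i) {x : C.A X} (hx : x ∈ C.gr X j) :
    actC C X (Q i) x = 0 := by
  rw [← hB, mem_ckFil' hQ] at hx
  exact hx.2 i (by omega)

lemma phZero_of_B (hd : 1 ≤ X.dim) {P : ℕ → Cor C X} (hP : IsCK H X P) (hT : Tri P)
    (h0 : MurreB0 H X) (h1 : MurreB1 H X) (j : ℕ) : PhZero H X j := by
  apply phZero_of_sub hP hT
  intro a ha ε hε x hx
  have hz := hε.act_mem hx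
  rcases Nat.eq_zero_or_pos j with hj | hj
  · subst hj
    by_cases h2 : a = 2 * X.dim
    · have h3 := act_zero_of_B0 hP (h0 P hP 0) (show 2 * 0 < a by omega) hz
      rw [hε.act_P hP, if_pos rfl] at h3
      exact h3
    · have hQ := isCK_mv hP ha le_rfl (Ne.symm h2) hε
      have h3 := act_zero_of_B0 hQ (h0 _ hQ 0) (show 2 * 0 < 2 * X.dim by omega) hz
      rw [hε.act_mv hP (Ne.symm h2), if_pos rfl] at h3
      exact h3
  · rcases Nat.eq_zero_or_pos a with h2 | h2
    · subst h2
      have h3 := act_zero_of_B1 hP (h1 P hP j) hj hz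
      rw [hε.act_P hP, if_pos rfl] at h3
      exact h3
    · have hQ := isCK_mv hP ha (Nat.zero_le _) h2.ne hε
      have h3 := act_zero_of_B1 hQ (h1 _ hQ j) hj hz
      rw [hε.act_mv hP h2.ne, if_pos rfl] at h3
      exact h3

lemma phZero_of_D {P : ℕ → Cor C X} (hP : IsCK H X P) (hT : Tri P)
    (hD : MurreD H X) (j : ℕ) : PhZero H X j := by
  apply phZero_of_sub hP hT
  intro a ha ε hε x hx
  have hz := hε.act_mem hx
  have hcl : H.cl (actC C X ε x) = 0 := by
    have h1 := cl_act H (X := X) (Y := X) (Γ := (ε : C.A (X.prod X))) (x := x)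
    have h2 : H.cl (X := X.prod X) (ε : C.A (X.prod X)) = 0 := hε.cl
    rw [h2] at h1
    exact h1.trans (TheoryData.act_zero _ _)
  by_cases hj : X.dim < j
  · exact hC.gr_top X j _ hz (by exact_mod_cast hj)
  by_cases h2 : a = 2 * j
  · have h3 := (hD P hP j _).2 ⟨hz, hcl⟩
    rw [mem_ckFil' hP] at h3
    have h4 := h3.2 a (by omega)
    rw [hε.act_P hP, if_pos rfl] at h4
    exact h4
  · have hQ := isCK_mv hP ha (show 2 * j ≤ 2 * X.dim by omega) (Ne.symm h2) hε
    have h3 := (hD _ hQ j _).2 ⟨hz, hcl⟩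
    rw [mem_ckFil' hQ] at h3
    have h4 := h3.2 (2 * j) (by omega)
    rw [hε.act_mv hP (Ne.symm h2), if_pos rfl] at h4
    exact h4

/-- Let `P` be a Chow-Kunneth decomposition such that correspondences of degree zero do not raise
the weights. -/
theorem tfae_general (hd : 1 ≤ X.dim) {P : ℕ → Cor C X} (hP : IsCK H X P) (hT : Tri P) :
    ((∀ j, PhZero H X j) ↔ MurreC H X) ∧
    (SatisfiesB C (X := X) P → ((∀ j, PhZero H X j) ↔ MurreB0 H X ∧ MurreB1 H X)) ∧
    (SatisfiesD H (X := X) P → ((∀ j, PhZero H X j) ↔ MurreD H X)) := by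
  have key : (∀ j, PhZero H X j) → ∀ Q, IsCK H X Q → ∀ j n, ckFil C Q j n = ckFil C P j n :=
    fun h Q hQ j n => (ckFil_eq hP hQ hT (h j) n).symm
  refine ⟨⟨fun h Q Q' hQ hQ' j n => (key h Q hQ j n).trans (key h Q' hQ' j n).symm,
    fun h j => phZero_of_C hd hP hT h j⟩, fun hB => ⟨fun h => ⟨fun Q hQ j => ?_, fun Q hQ j => ?_⟩,
    fun h j => phZero_of_B hd hP hT h.1 h.2 j⟩, fun hD => ⟨fun h Q hQ j x => ?_,
    fun h j => phZero_of_D hP hT h j⟩⟩
  · rw [key h Q hQ]; exact (hB j).1
  · rw [key h Q hQ]; exact (hB j).2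
  · rw [key h Q hQ]; exact hD j x

end Pool.Agent.J4H14.MB
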