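import Pool.Agent.Q73.LS.Defs

/-!
# Nilpotence, the Lefschetz standard conjecture and the geometric coniveau: definitions
-/

set_option autoImplicit false

open CategoryTheory AlgebraicGeometry

universe u v w

namespace Pool.Agent.J4H14.MB

open Pool.Agent.H914 Pool.Agent.H914.VarClass Pool.Agent.H914.VarClass.Obj Pool.Agent.W492.BB
  Pool.Agent.W550.Corr Pool.Agent.TH133 Pool.Agent.Y107

variable {k : Type u} [Field k] {𝒱 : VarClass k} {C : TheoryData.{u, v, 0} 𝒱 ℚ}
  {K : Type w} [Field K] (H : WeilTheoryData.{u, v, w} C K)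

/-- The homologically trivial self-correspondences of degree zero of `X` are nilpotent. (This is
the case if the Chow motive of `X` is finite-dimensional in the sense of Kimura and
O'Sullivan.) -/
def IsNilpotent (X : 𝒱.Obj) : Prop :=
  ∀ γ : C.A (X.prod X), C.Deg X.dim γ → H.cl γ = 0 → ∃ n : ℕ, corPow C γ n = 0

/-- The Lefschetz standard conjecture for `X`: for `n ≤ d = dim X` there are algebraic
correspondences `f` (for instance the intersection with the power `D^(d-n)` of an ample divisor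
class) and `g` inducing isomorphisms `H^n(X) → H^(2d-n)(X)` and `H^(2d-n)(X) → H^n(X)` which are
inverse to each other. -/
def LefschetzStandard (X : 𝒱.Obj) : Prop :=
  ∀ n ≤ X.dim, ∃ f g : C.A (X.prod X), C.Deg (2 * X.dim - n : ℕ) f ∧ C.Deg n g ∧
    (∀ a : H.A X, H.Deg n a → H.act (H.cl g) (H.act (H.cl f) a) = a) ∧
    ∀ a : H.A X, H.Deg (2 * X.dim - n : ℕ) a → H.act (H.cl f) (H.act (H.cl g) a) = a

/-- The geometric coniveau of `H^i(X)` is at least `c`: there are varieties `Y_0, …, Y_(n-1)`,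
numbers `s_a ≥ c`, and correspondences `α_a` from `X` to `Y_a` and `β_a` from `Y_a` to `X`, of
degrees `-s_a` and `s_a` (they induce maps `H^i(X) → H^(i - 2 s_a)(Y_a) → H^i(X)`), such that the
sum of the `β_a ∘ α_a` is the identity on `H^i(X)`. -/
def ConiveauAtLeast (X : 𝒱.Obj) (i c : ℕ) : Prop :=
  ∃ (n : ℕ) (Y : Fin n → 𝒱.Obj) (s : Fin n → ℕ) (α : ∀ a, C.A (X.prod (Y a)))
    (β : ∀ a, C.A ((Y a).prod X)),
    (∀ a, c ≤ s a ∧ C.Deg ((X.dim : ℤ) - s a) (α a) ∧ C.Deg (((Y a).dim : ℤ) + s a) (β a)) ∧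
    ∀ x : H.A X, H.Deg i x → ∑ a, H.act (H.cl (β a)) (H.act (H.cl (α a)) x) = x

end Pool.Agent.J4H14.MB
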