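import Pool.Agent.Q73.LS.Defs

/-!
# Surfaces: definitions
-/

set_option autoImplicit false

open CategoryTheory AlgebraicGeometry

universe u v w

namespace Pool.Agent.J4H14.MB

open Pool.Agent.H914 Pool.Agent.H914.VarClass Pool.Agent.H914.VarClass.Obj Pool.Agent.W492.BB
  Pool.Agent.W550.Corr Pool.Agent.TH133 Pool.Agent.Y107

variable {k : Type u} [Field k] {𝒱 : VarClass k}

/-- For `n ≤ d = dim X` the Chow motives `h^n(X)` and `h^(2d-n)(X)(d-n)` of the decomposition `π` are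
isomorphic: there are `f = π (2d-n) ∘ f ∘ π n ∈ CH^(2d-n)(X × X)` and
`g = π n ∘ g ∘ π (2d-n) ∈ CH^n(X × X)` with `g ∘ f = π n` and `f ∘ g = π (2d-n)`. -/
def HasLefschetzIso (C : TheoryData.{u, v, 0} 𝒱 ℚ) {X : 𝒱.Obj} (π : ℕ → C.A (X.prod X)) : Prop :=
  ∀ n ≤ X.dim, ∃ f g : C.A (X.prod X), C.Deg (2 * X.dim - n : ℕ) f ∧ C.Deg n g ∧
    C.comp (C.comp (π n) f) (π (2 * X.dim - n)) = f ∧
    C.comp (C.comp (π (2 * X.dim - n)) g) (π n) = g ∧
    C.comp f g = π n ∧ C.comp g f = π (2 * X.dim - n)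

variable {C : TheoryData.{u, v, 0} 𝒱 ℚ} {K : Type w} [Field K] (H : WeilTheoryData.{u, v, w} C K)

/-- `H^2(X)` is spanned by the classes of divisors: there are divisor classes `a_i`, `b_i` such that
`x = ∑ (a_i · x) b_i` for `x ∈ H^2(X)`. (The operator `x ↦ (a · x) b` is the action of `a × b`.) -/
def AlgebraicH2 (X : 𝒱.Obj) : Prop :=
  ∃ (r : ℕ) (a b : Fin r → C.A X), (∀ i, C.Deg 1 (a i) ∧ C.Deg 1 (b i)) ∧
    ∀ x : H.A X, H.Deg 2 x → ∑ i, H.act (H.cl (C.ext (a i) (b i))) x = x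

/-- The homologically trivial idempotents of the ring `CH^d(X × X)` of self-correspondences of degree
zero, `d = dim X`, act as zero on `CH^j(X)`. -/
def NoPhantomsOn (X : 𝒱.Obj) (j : ℕ) : Prop :=
  ∀ e : C.A (X.prod X), C.Deg X.dim e → C.comp e e = e → H.cl e = 0 →
    ∀ x : C.A X, C.Deg j x → C.act e x = 0

end Pool.Agent.J4H14.MB
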