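import Pool.Agent.J4H14.MB.A
import Pool.Agent.J4H14.MB.D
import Pool.Agent.J4H14.MB.SDefs

/-!
# Surfaces
-/

set_option autoImplicit false

open CategoryTheory AlgebraicGeometry

universe u v w

namespace Pool.Agent.J4H14.MB

open Pool.Agent.H914 Pool.Agent.H914.VarClass Pool.Agent.H914.VarClass.Obj Pool.Agent.W492.BB
  Pool.Agent.W550.Corr Pool.Agent.TH133 Pool.Agent.Y107 Pool.Agent.Q73.LS

set_option linter.unusedSectionVars false

variable {k : Type u} [Field k] {𝒱 : VarClass k} {C : TheoryData.{u, v, 0} 𝒱 ℚ}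
  [hC : IsChowProj C] {K : Type w} [Field K]
  {H : WeilTheoryData.{u, v, w} C K} [hH : IsWeilProj H] {X : 𝒱.Obj}

/-- The correspondences of degree `e`. -/
def InDeg (e : ℤ) (a : Cor C X) : Prop := (a : C.A (X.prod X)) ∈ C.gr (X.prod X) (X.dim + e)

lemma InDeg.mul {e e' : ℤ} {a b : Cor C X} (ha : InDeg e a) (hb : InDeg e' b) :
    InDeg (e + e') (a * b) := by
  have h := comp_mem C (X := X) (Y := X) (Z := X) hb ha
  rw [InDeg, cor_mul, add_comm e e']
  exact h

lemma inDeg_zero {a : Cor C X} : InDeg 0 a ↔ a ∈ cor0 C X := by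
  rw [InDeg, add_zero, mem_cor0]

lemma InDeg.act {e i : ℤ} {a : Cor C X} (ha : InDeg e a) {x : C.A X} (hx : x ∈ C.gr X i) :
    actC C X a x ∈ C.gr X (i + e) := act_mem' C (X := X) (Y := X) ha hx

/-- The isomorphisms, in the ring of correspondences. -/
structure Iso2 (P : ℕ → Cor C X) (n : ℕ) (f g : Cor C X) : Prop where
  degf : InDeg ((X.dim : ℤ) - n) f
  degg : InDeg ((n : ℤ) - X.dim) g
  fl : P (2 * X.dim - n) * f = f
  fr : f * P n = f
  gl : P n * g = g
  gr : g * P (2 * X.dim - n) = g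
  gf : g * f = P n
  fg : f * g = P (2 * X.dim - n)

include hH

lemma exists_iso2 {P : ℕ → Cor C X} (hP : IsCK H X P) (hL : HasLefschetzIso C (X := X) P) {n : ℕ}
    (hn : n ≤ X.dim) : ∃ f g : Cor C X, Iso2 P n f g := by
  obtain ⟨(f : Cor C X), (g : Cor C X), hf, hg, h1, h2, h3, h4⟩ := hL n hn
  have h1' : P (2 * X.dim - n) * (f * P n) = f := h1
  have h2' : P n * (g * P (2 * X.dim - n)) = g := h2
  have hPP : ∀ i, P i * P i = P i := fun i => by rw [hP.mul_eq, if_pos rfl]
  refine ⟨f, g, ?_, ?_, ?_, ?_, ?_, ?_, h3, h4⟩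
  · have e : ((2 * X.dim - n : ℕ) : ℤ) = X.dim + ((X.dim : ℤ) - n) := by omega
    rw [e] at hf
    exact hf
  · have e : (n : ℤ) = X.dim + ((n : ℤ) - X.dim) := by ring
    change (g : C.A (X.prod X)) ∈ C.gr (X.prod X) (X.dim + ((n : ℤ) - X.dim))
    rw [← e]
    exact hg
  · rw [← h1', ← mul_assoc, hPP]
  · rw [← h1', mul_assoc, mul_assoc, hPP]
  · rw [← h2', ← mul_assoc, hPP]
  · rw [← h2', mul_assoc, mul_assoc, hPP]

/-- The vanishing of the components of correspondences in `CH^j(X × X)`, `j ≤ 1`. -/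
lemma comp_zero_low (hPF : PicardFaithful H) {P : ℕ → Cor C X} (hP : IsCK H X P) {j : ℕ}
    (hj : j ≤ 1) {γ : Cor C X} (hγ : InDeg ((j : ℤ) - X.dim) γ) {a b : ℕ}
    (ha : a ≤ 2 * X.dim) (hab : 2 * j + a < 2 * X.dim + b) : P b * γ * P a = 0 := by
  have hγ' : (γ : C.A (X.prod X)) ∈ C.gr (X.prod X) j := by
    have e : (j : ℤ) = X.dim + ((j : ℤ) - X.dim) := by ring
    rw [e]
    exact hγ
  have h1 := comp_zero_of_prod (H := H) hP hP (b := b) ha
    (low_B0 hPF (hP.dual.prod hP) hj (i := 2 * X.dim - a + b) (by omega) hγ')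
  rw [mul_assoc]
  exact h1

/-- **The weights.** -/
lemma tri_of_surface (hPF : PicardFaithful H) (hd : X.dim = 2) {P : ℕ → Cor C X}
    (hP : IsCK H X P) (hL : HasLefschetzIso C (X := X) P) : Tri P := by
  intro γ hγ a b hab
  by_cases hb : 4 < b
  · have h0 : P b = 0 := hP.out b (by omega)
    rw [h0, zero_mul, zero_mul]
  by_cases hb3 : 3 ≤ b
  · obtain ⟨f, g, h⟩ := exists_iso2 hP hL (n := 4 - b) (by omega)
    have hb' : P b = f * g := by
      rw [h.fg]
      congr 1
      omega
    have h1 : P (4 - b) * (g * γ) * P a = 0 := by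
      apply comp_zero_low hPF hP (j := 4 - b) (by omega) _ (by omega) (by omega)
      have := h.degg.mul (inDeg_zero.2 hγ)
      rw [add_zero] at this
      exact this
    calc P b * γ * P a = f * (P (4 - b) * (g * γ) * P a) := by
          rw [hb', ← h.gl]
          simp only [mul_assoc]
          rw [← mul_assoc (P (4 - b)) (P (4 - b)), hP.mul_eq, if_pos rfl]
      _ = 0 := by rw [h1, mul_zero]
  · obtain ⟨f, g, h⟩ := exists_iso2 hP hL (n := a) (by omega)
    have h1 : P b * (γ * g) * P (4 - a) = 0 := by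
      apply comp_zero_low hPF hP (j := a) (by omega) _ (by omega) (by omega)
      have := (inDeg_zero.2 hγ).mul h.degg
      rw [zero_add] at this
      exact this
    have e : 2 * X.dim - a = 4 - a := by omega
    have hgr := h.gr
    rw [e] at hgr
    calc P b * γ * P a = (P b * (γ * g) * P (4 - a)) * f := by
          rw [← h.gf, ← hgr]
          simp only [mul_assoc]
          rw [← mul_assoc (P (4 - a)) (P (4 - a)), hP.mul_eq, if_pos rfl]
      _ = 0 := by rw [h1, zero_mul]

/-- `P i` acts as zero on `CH^j(X)` for `i < j`. -/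
lemma act_zero_of_iso (hd : X.dim = 2) {P : ℕ → Cor C X}
    (hP : IsCK H X P) (hL : HasLefschetzIso C (X := X) P) {i j : ℕ} (hij : i < j) {x : C.A X}
    (hx : x ∈ C.gr X j) : actC C X (P i) x = 0 := by
  by_cases hj : X.dim < j
  · rw [hC.gr_top X j x hx (by exact_mod_cast hj), map_zero]
  obtain ⟨f, g, h⟩ := exists_iso2 hP hL (n := i) (by omega)
  rw [← h.gf, map_mul, Module.End.mul_apply,
    hC.gr_top X _ _ (h.degf.act hx) (by omega), map_zero]

lemma satisfiesB_of_surface (hPF : PicardFaithful H) (hd : X.dim = 2) {P : ℕ → Cor C X}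
    (hP : IsCK H X P) (hL : HasLefschetzIso C (X := X) P) : SatisfiesB C (X := X) P := by
  intro j
  constructor
  · ext x
    rw [mem_ckFil' hP]
    refine ⟨fun h => h.1, fun hx => ⟨hx, fun m hm => ?_⟩⟩
    rcases Nat.lt_or_ge 1 j with hj | hj
    · have h0 : P m = 0 := hP.out m (by omega)
      rw [h0, map_zero, LinearMap.zero_apply]
    · exact low_B0 hPF hP hj (by omega) hx
  · rw [eq_bot_iff]
    intro x hx
    rw [mem_ckFil' hP] at hx
    rw [Submodule.mem_bot, ← sum_act hP x]
    refine Finset.sum_eq_zero fun m _ => ?_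
    rcases lt_or_ge m j with h | h
    · exact act_zero_of_iso hd hP hL h hx.1
    · exact hx.2 m (by omega)

/-- The homologically trivial classes in the pieces `P a CH^j(X)` with `a + j ≥ 5`. -/
lemma cl_actC (a : Cor C X) (x : C.A X) : H.cl (actC C X a x) = actH C X H a (H.cl x) :=
  cl_act H (X := X) (Y := X) (a : C.A (X.prod X)) x

lemma satisfiesD_of_surface (hPF : PicardFaithful H) (hd : X.dim = 2) {P : ℕ → Cor C X}
    (hP : IsCK H X P) (hL : HasLefschetzIso C (X := X) P) : SatisfiesD H (X := X) P := by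
  intro j x
  rw [mem_ckFil' hP]
  constructor
  · intro hx
    refine ⟨hx.1, ?_⟩
    have h1 := hx.2 (2 * j) (by omega)
    have h2 : H.cl (actC C X (P (2 * j)) x) = H.cl x := by
      rw [cl_actC]
      exact hP.act_self (2 * j) _ (by exact_mod_cast H.cl_mem hx.1)
    rw [← h2, h1, map_zero]
  · rintro ⟨hx, h0⟩
    refine ⟨hx, fun m hm => ?_⟩
    rcases Nat.lt_or_ge 1 j with hj | hj
    · by_cases hm4 : 2 * X.dim < m
      · have h0 : P m = 0 := hP.out m (by omega)
        rw [h0, map_zero, LinearMap.zero_apply]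
      · obtain ⟨f, g, h⟩ := exists_iso2 hP hL (n := 0) (by omega)
        have hPm : P m = f * g := by
          rw [h.fg]
          congr 1
          omega
        have h1 : actC C X g x = 0 := by
          apply eq_zero_of_le (H := H) (j := (j : ℤ) + (((0 : ℕ) : ℤ) - X.dim)) (by omega)
            (h.degg.act hx)
          rw [cl_actC, h0, map_zero]
        rw [hPm, map_mul, Module.End.mul_apply, h1, map_zero]
    · exact low_D hPF hP hj (by omega) hx h0

lemma phZero_low (hPF : PicardFaithful H) {j : ℕ} (hj : j ≤ 1) : PhZero H X j := by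
  intro e he hee hcl x hx
  have hy : actC C X e x ∈ C.gr X j := actC_mem (H := H) he hx
  have hy0 : H.cl (actC C X e x) = 0 := by
    rw [cl_actC, actH_apply, hcl]
    exact TheoryData.act_zero _ _
  interval_cases j
  · exact eq_zero_of_deg0 (H := H) (by exact_mod_cast hy) hy0
  · have h1 : C.act (X := X) (Y := X) e (actC C X e x) = 0 := by
      apply hPF X e he _ _ (by exact_mod_cast hy) hy0
      intro a _
      rw [hcl]
      exact TheoryData.act_zero _ _
    have h2 : actC C X e (actC C X e x) = actC C X e x := by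
      rw [← Module.End.mul_apply, ← map_mul, hee]
    rw [← h2]
    exact h1

lemma phZero_iff_surface (hPF : PicardFaithful H) (hd : X.dim = 2) :
    (∀ j, PhZero H X j) ↔ PhZero H X 2 := by
  refine ⟨fun h => h 2, fun h j => ?_⟩
  rcases lt_trichotomy j 2 with h1 | h1 | h1
  · exact phZero_low hPF (by omega)
  · rw [h1]; exact h
  · intro e he _ _ x hx
    rw [hC.gr_top X j x hx (by exact_mod_cast (show X.dim < j by omega)), map_zero]

lemma phZero_iff (j : ℕ) : PhZero H X j ↔ NoPhantomsOn H X j := Iff.rfl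

/-- **Surfaces.** -/
theorem tfae_surface (hPF : PicardFaithful H) (hd : X.dim = 2) {P : ℕ → Cor C X}
    (hP : IsCK H X P) (hL : HasLefschetzIso C (X := X) P) :
    [MurreB0 H X ∧ MurreB1 H X, MurreC H X, MurreD H X, NoPhantomsOn H X 2].TFAE := by
  obtain ⟨h1, h2, h3⟩ := tfae_general (by omega) hP (tri_of_surface hPF hd hP hL)
  have h2' := h2 (satisfiesB_of_surface hPF hd hP hL)
  have h3' := h3 (satisfiesD_of_surface hPF hd hP hL)
  have h4 := phZero_iff_surface (X := X) hPF hd
  rw [h4, phZero_iff] at h1 h2' h3'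
  tfae_have 4 ↔ 1 := h2'
  tfae_have 4 ↔ 2 := h1
  tfae_have 4 ↔ 3 := h3'
  tfae_finish

end Pool.Agent.J4H14.MB
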