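import Pool.Agent.J4H14.MB.E

/-!
# Surfaces with algebraic `H^2`
-/

set_option autoImplicit false

open CategoryTheory AlgebraicGeometry

universe u v w

namespace Pool.Agent.J4H14.MB

open Pool.Agent.H914 Pool.Agent.H914.VarClass Pool.Agent.H914.VarClass.Obj Pool.Agent.W492.BB
  Pool.Agent.W550.Corr Pool.Agent.TH133 Pool.Agent.Y107 Pool.Agent.Q73.LS

set_option linter.unusedSectionVars false

variable {k : Type u} [Field k] {𝒱 : VarClass k} {C : TheoryData.{u, v, 0} 𝒱 ℚ}
  [hC : IsChowProj C] {K : Type w} [Field K]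
  {H : WeilTheoryData.{u, v, w} C K} [hH : IsWeilProj H] {X : 𝒱.Obj}

/-- `∑ a_i × b_i` -/
noncomputable def sumExt {r : ℕ} (a b : Fin r → C.A X) : Cor C X :=
  (∑ i, C.ext (a i) (b i) : C.A (X.prod X))

lemma comp_sumExt (γ : C.A (X.prod X)) {r : ℕ} (a b : Fin r → C.A X) :
    C.comp (∑ i, C.ext (a i) (b i)) γ = ∑ i, C.ext (a i) (C.act γ (b i)) := by
  rw [sum_comp]
  refine Finset.sum_congr rfl fun i _ => ?_
  rw [comp_eq_extR]
  exact TheoryData.extR_ext (T := C) _ (fun c => ch_comm C _ _) _ _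

lemma mul_sumExt (γ : Cor C X) {r : ℕ} (a b : Fin r → C.A X) :
    γ * sumExt a b = sumExt a fun i => actC C X γ (b i) := comp_sumExt γ a b

lemma idem_sub {R : Type*} [Ring R] {p b : R} (hp : p * p = p) (hb : b * b = b)
    (hpb : p * b = b) : (p - b * p) * (p - b * p) = p - b * p := by
  have h1 : b * p * (b * p) = b * p := by rw [mul_assoc, ← mul_assoc p, hpb, ← mul_assoc, hb]
  have h2 : p * (b * p) = b * p := by rw [← mul_assoc, hpb]
  have h3 : b * p * p = b * p := by rw [mul_assoc, hp]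
  rw [sub_mul, mul_sub, mul_sub, hp, h1, h2, h3, sub_self, sub_zero]

include hH

lemma ckFil_two_two (hd : X.dim = 2) {P : ℕ → Cor C X} (hP : IsCK H X P)
    (hL : HasLefschetzIso C (X := X) P) :
    ckFil C P 2 2 = ⊥ ↔ ∀ z ∈ C.gr X (2 : ℕ), actC C X (P 2) z = 0 := by
  rw [eq_bot_iff]
  constructor
  · intro h z hz
    have h1 : actC C X (P 2) z ∈ ckFil C P 2 2 := by
      rw [mem_ckFil' hP]
      refine ⟨actC_mem (H := H) (hP.deg 2) hz, fun m hm => ?_⟩
      rw [← Module.End.mul_apply, ← map_mul, hP.mul_eq, if_neg (by omega), map_zero,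
        LinearMap.zero_apply]
    exact (Submodule.mem_bot ℚ).1 (h h1)
  · intro h x hx
    rw [mem_ckFil' hP] at hx
    rw [Submodule.mem_bot, ← sum_act hP x]
    refine Finset.sum_eq_zero fun m _ => ?_
    rcases lt_trichotomy m 2 with h1 | h1 | h1
    · exact act_zero_of_iso hd hP hL h1 hx.1
    · rw [h1]; exact h x hx.1
    · exact hx.2 m (by omega)

lemma noPhantoms_of_ckFil (hPF : PicardFaithful H) (hd : X.dim = 2) {P : ℕ → Cor C X}
    (hP : IsCK H X P) (hL : HasLefschetzIso C (X := X) P)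
    (h : ∀ z ∈ C.gr X (2 : ℕ), actC C X (P 2) z = 0) : PhZero H X 2 := by
  apply phZero_of_sub hP (tri_of_surface hPF hd hP hL)
  intro a ha ε hε x hx
  have hz := hε.act_mem hx
  have hz' : actC C X (P a) (actC C X ε x) = actC C X ε x := by
    rw [hε.act_P hP, if_pos rfl]
  rcases lt_trichotomy a 2 with h1 | h1 | h1
  · rw [← hz']
    exact act_zero_of_iso hd hP hL h1 hz
  · rw [← hz', h1]
    exact h _ hz
  · obtain ⟨f, g, hfg⟩ := exists_iso2 hP hL (n := 4 - a) (by omega)
    have hPa : P a = f * g := by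
      rw [hfg.fg]
      congr 1
      omega
    have hcl : H.cl (actC C X ε x) = 0 := by
      rw [cl_actC, actH_apply, hε.cl]
      exact TheoryData.act_zero _ _
    set y := actC C X g (actC C X ε x) with hy
    have hyd : y ∈ C.gr X ((4 - a : ℕ) : ℤ) := by
      have h2 := hfg.degg.act hz
      have e : ((2 : ℕ) : ℤ) + (((4 - a : ℕ) : ℤ) - X.dim) = ((4 - a : ℕ) : ℤ) := by
        rw [hd]; ring
      rw [e] at h2
      exact h2
    have hycl : H.cl y = 0 := by
      rw [hy, cl_actC, hcl, map_zero]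
    have hfy : actC C X f y = actC C X ε x := by
      rw [hy, ← Module.End.mul_apply, ← map_mul, ← hPa, hz']
    have hy0 : y = 0 := by
      rcases Nat.lt_or_ge 3 a with h3 | h3
      · exact eq_zero_of_le (H := H) (by omega) hyd hycl
      · have ha3 : a = 3 := by omega
        subst ha3
        have he' : g * ε * f ∈ cor0 C X := by
          rw [← inDeg_zero]
          have h2 := (hfg.degg.mul (inDeg_zero.2 hε.mem)).mul hfg.degf
          have e : ((4 - 3 : ℕ) : ℤ) - X.dim + 0 + (X.dim - ((4 - 3 : ℕ) : ℤ)) = 0 := by ring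
          rw [e] at h2
          exact h2
        have h2 : C.act (X := X) (Y := X) (g * ε * f : Cor C X) y = 0 := by
          apply hPF X _ he' _ _ (by exact_mod_cast hyd) hycl
          intro b _
          have h4 : actH C X H (g * ε * f) b = 0 := by
            rw [map_mul, map_mul, Module.End.mul_apply, Module.End.mul_apply, hε.actH0, map_zero]
          exact h4
        have h5 : actC C X (g * ε * f) y = y := by
          have hεε : actC C X ε (actC C X ε x) = actC C X ε x := by
            rw [← Module.End.mul_apply, ← map_mul, hε.idem]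
          rw [map_mul, Module.End.mul_apply, hfy, map_mul, Module.End.mul_apply, hεε]
        rw [← h5]
        exact h2
    rw [← hfy, hy0, map_zero]

lemma act_two_of_noPhantoms (hPF : PicardFaithful H) (hd : X.dim = 2) {P : ℕ → Cor C X}
    (hP : IsCK H X P) (hA : AlgebraicH2 H X) (h : PhZero H X 2) {z : C.A X}
    (hz : z ∈ C.gr X (2 : ℕ)) : actC C X (P 2) z = 0 := by
  obtain ⟨r, a, b, hab, hid⟩ := hA
  have hPP : ∀ i, P i * P i = P i := fun i => by rw [hP.mul_eq, if_pos rfl]
  -- `β = P 2 ∘ ∑ a_i × b_i`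
  set α : Cor C X := sumExt a b with hα
  have hα0 : α ∈ cor0 C X := by
    rw [mem_cor0]
    apply Submodule.sum_mem
    intro i _
    have h1 := ext_mem (H := H) (hab i).1 (hab i).2
    have e : (1 : ℤ) + 1 = X.dim := by rw [hd]; norm_num
    rw [e] at h1
    exact h1
  have hαH : ∀ x : H.A X, x ∈ H.gr X 2 → actH C X H α x = x := by
    intro x hx
    rw [actH_apply]
    conv_rhs => rw [← hid x hx]
    rw [hα, sumExt, map_sum, act_sum]
  set β : Cor C X := P 2 * α with hβ
  have hβ0 : β ∈ cor0 C X := (cor0 C X).mul_mem (hP.deg 2) hα0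
  have hβH : ∀ x : H.A X, x ∈ H.gr X 2 → actH C X H β x = x := by
    intro x hx
    rw [hβ, map_mul, Module.End.mul_apply, hαH x hx, hP.actH_eq' 2 2 hx, if_pos (by norm_num)]
  have hβs : β = sumExt a fun i => actC C X (P 2) (b i) := mul_sumExt _ _ _
  have hPβ : P 2 * β = β := by rw [hβ, ← mul_assoc, hPP]
  have hββ : β * β = β := by
    conv_lhs => rw [hβs]
    conv_rhs => rw [hβs]
    rw [mul_sumExt]
    congr 1
    funext i
    rw [← hβs]
    set y := actC C X (P 2) (b i) with hy
    have hyd : y ∈ C.gr X (1 : ℕ) := actC_mem (H := H) (hP.deg 2) (by exact_mod_cast (hab i).2)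
    have hyy : actC C X (P 2) y = y := by rw [hy, ← Module.End.mul_apply, ← map_mul, hPP]
    have hd1 : actC C X β y - y ∈ C.gr X (1 : ℕ) :=
      Submodule.sub_mem _ (actC_mem (H := H) hβ0 hyd) hyd
    have hd0 : H.cl (actC C X β y - y) = 0 := by
      rw [map_sub, cl_actC, hβH _ (by exact_mod_cast H.cl_mem hyd), sub_self]
    have h1 : actC C X (P 2) (actC C X β y - y) = 0 :=
      low_D hPF hP le_rfl le_rfl hd1 hd0
    rw [map_sub, hyy, ← Module.End.mul_apply, ← map_mul, hPβ, sub_eq_zero] at h1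
    exact h1
  let ε : Cor C X := P 2 - β * P 2
  have hε0 : ε ∈ cor0 C X :=
    (cor0 C X).sub_mem (hP.deg 2) ((cor0 C X).mul_mem hβ0 (hP.deg 2))
  have hεε : ε * ε = ε := idem_sub (hPP 2) hββ hPβ
  have hεcl : H.cl (X := X.prod X) ε = 0 := by
    apply hom_zero_of_act H
    have h2 : actH C X H ε = 0 := by
      apply ext_gr H
      intro m x hx
      change actH C X H (P 2 - β * P 2) x = _
      rw [map_sub, map_mul, LinearMap.sub_apply, Module.End.mul_apply, hP.actH_eq' 2 m hx,
        LinearMap.zero_apply]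
      split_ifs with hm
      · subst hm
        rw [hβH x hx, sub_self]
      · rw [map_zero, sub_zero]
    exact fun x => LinearMap.congr_fun h2 x
  have h3 := h ε hε0 hεε hεcl z hz
  have h4 : actC C X (β * P 2) z = 0 := by
    rw [map_mul, Module.End.mul_apply, hβs]
    have hw : actC C X (P 2) z ∈ C.gr X (2 : ℕ) := actC_mem (H := H) (hP.deg 2) hz
    change C.act (∑ i, C.ext (a i) _) _ = 0
    rw [act_sum]
    refine Finset.sum_eq_zero fun i _ => ?_
    rw [TheoryData.act_apply, TheoryData.ext]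
    have h5 : a i * actC C X (P 2) z = 0 := by
      apply hC.gr_top X (1 + (2 : ℕ)) _ (C.mul_mem (hab i).1 hw)
      rw [hd]
      norm_num
    rw [ch_comm C, ← mul_assoc, ← map_mul, ch_comm C _ (a i), h5, map_zero, zero_mul, map_zero]
  change actC C X (P 2 - β * P 2) z = 0 at h3
  rw [map_sub, LinearMap.sub_apply, h4, sub_zero] at h3
  exact h3

/-- **Surfaces with algebraic `H^2`.** -/
theorem noPhantoms_iff (hPF : PicardFaithful H) (hd : X.dim = 2) {P : ℕ → Cor C X}
    (hP : IsCK H X P) (hL : HasLefschetzIso C (X := X) P) (hA : AlgebraicH2 H X) :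
    NoPhantomsOn H X 2 ↔ ckFil C P 2 2 = ⊥ := by
  rw [ckFil_two_two hd hP hL, ← phZero_iff]
  exact ⟨fun h z hz => act_two_of_noPhantoms hPF hd hP hA h hz,
    fun h => noPhantoms_of_ckFil hPF hd hP hL h⟩

end Pool.Agent.J4H14.MB
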